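import Pool.Agent.Helper99.EXC.GoalsK

/-! Packet KER of project EXC: assembly of the potential kernel. -/

open Finset MeasureTheory

namespace Pool.Agent.Helper51.EXC

open Pool.Agent.Helper99.EXC Pool.Agent.Helper99.ERW

/-- Exchange of the coordinates. -/
def sw (z : Site 2) : Site 2 := fun i => z (Equiv.swap 0 1 i)

/-- Exchange of the coordinates of a direction. -/
def sd (e : Dir 2) : Dir 2 := (Equiv.swap 0 1 e.1, e.2)

theorem sw0 (z : Site 2) : sw z 0 = z 1 := by simp [sw]
theorem sw1 (z : Site 2) : sw z 1 = z 0 := by simp [sw]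

theorem sw_add (x y : Site 2) : sw (x + y) = sw x + sw y := by
  funext i; rfl

theorem sw_vec (e : Dir 2) : sw (vec e) = vec (sd e) := by
  obtain ⟨k, b⟩ := e
  funext i
  unfold sw sd vec
  fin_cases k <;> fin_cases i <;> simp [Pi.single_apply]

theorem ph_sw (hSYM : SYM_stmt) (a : ℝ) (h0 : 0 < a) (h1 : a < 1) (z : Site 2) :
    ph a z = ph (1 - a) (sw z) := by
  unfold ph
  rw [sw0, sw1]
  exact (hSYM a h0 h1).1 _ _

theorem nm_sw (z : Site 2) : nm (sw z) = nm z := by
  unfold nm
  rw [sw0, sw1, max_comm]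

theorem kap_sw (a : ℝ) : kap (1 - a) = kap a := by
  unfold kap
  congr 3
  ring

theorem nm_nonneg (x : Site 2) : 0 ≤ nm x := le_max_of_le_left (abs_nonneg _)

theorem KER (hRHO : RHO_stmt) (hINT : INT_stmt) (hLAP : LAP_stmt) (hSYM : SYM_stmt)
    (hDIF : DIF_stmt) (hLOG : LOG_stmt) (hFRM : FRM_stmt) : KER_stmt := by
  intro a h0 h1
  have h0' : 0 < 1 - a := by linarith
  have h1' : 1 - a < 1 := by linarith
  obtain ⟨C1, hC1⟩ := hDIF a h0 h1
  obtain ⟨C2, hC2⟩ := hDIF (1 - a) h0' h1'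
  obtain ⟨C3, hC3⟩ := hLOG a h0 h1
  obtain ⟨C4, hC4⟩ := hLOG (1 - a) h0' h1'
  obtain ⟨C5, -, hC5⟩ := hFRM a h0 h1
  obtain ⟨-, hz, hx, hy⟩ := hINT a h0 h1
  set C : ℝ := max 1 (max (max C1 C2) (max (max C3 C4) C5)) with hC
  have c0 : 1 ≤ C := le_max_left _ _
  have c1 : C1 ≤ C := (le_max_left _ _).trans ((le_max_left _ _).trans (le_max_right _ _))
  have c2 : C2 ≤ C := (le_max_right _ _).trans ((le_max_left _ _).trans (le_max_right _ _))
  have c3 : C3 ≤ C := (le_max_left _ _).trans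
    ((le_max_left _ _).trans ((le_max_right _ _).trans (le_max_right _ _)))
  have c4 : C4 ≤ C := (le_max_right _ _).trans
    ((le_max_left _ _).trans ((le_max_right _ _).trans (le_max_right _ _)))
  have c5 : C5 ≤ C := (le_max_right _ _).trans ((le_max_right _ _).trans (le_max_right _ _))
  have hsw : ∀ x : Site 2, ¬ |x 0| ≤ |x 1| → |sw x 0| ≤ |sw x 1| := by
    intro x h
    rw [sw0, sw1]
    exact (not_le.mp h).le
  refine ⟨C, ?_⟩
  constructor
  · unfold kap
    have : 0 < a * (1 - a) := mul_pos h0 h0'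
    have hl : 0 < Real.log 2 := Real.log_pos (by norm_num)
    have := Real.sqrt_pos.mpr this
    have := Real.pi_pos
    positivity
  · exact c0
  · exact hLAP a h0 h1
  · intro x
    unfold ph
    rw [Pi.neg_apply, Pi.neg_apply, hx, hy]
  · exact hz
  · intro x
    by_cases h : |x 0| ≤ |x 1|
    · exact (hC3 x h).trans c3
    · have := hC4 (sw x) (hsw x h)
      rw [nm_sw, kap_sw, ← ph_sw hSYM a h0 h1] at this
      exact this.trans c4
  · intro x e
    have hn : 0 < 1 + nm x := by have := nm_nonneg x; linarith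
    by_cases h : |x 0| ≤ |x 1|
    · exact ((hC1 x h).1 e).trans (by gcongr)
    · have := (hC2 (sw x) (hsw x h)).1 (sd e)
      rw [nm_sw, ← sw_vec, ← sw_add, ← ph_sw hSYM a h0 h1, ← ph_sw hSYM a h0 h1] at this
      exact this.trans (by gcongr)
  · intro x e f
    have hn : 0 < 1 + nm x := by have := nm_nonneg x; linarith
    by_cases h : |x 0| ≤ |x 1|
    · exact ((hC1 x h).2.1 e f).trans (by gcongr)
    · have := (hC2 (sw x) (hsw x h)).2.1 (sd e) (sd f)
      simp only [nm_sw, ← sw_vec, ← sw_add, ← ph_sw hSYM a h0 h1] at this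
      exact this.trans (by gcongr)
  · intro x e f g
    have hn : 0 < 1 + nm x := by have := nm_nonneg x; linarith
    by_cases h : |x 0| ≤ |x 1|
    · exact ((hC1 x h).2.2 e f g).trans (by gcongr)
    · have := (hC2 (sw x) (hsw x h)).2.2 (sd e) (sd f) (sd g)
      simp only [nm_sw, ← sw_vec, ← sw_add, ← ph_sw hSYM a h0 h1] at this
      exact this.trans (by gcongr)
  · intro B f g
    refine (hC5 B f g).trans ?_
    gcongr

end Pool.Agent.Helper51.EXC
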